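import Pool.Agent.Lib.MP_3ffbec_co.Main

open Pool.Agent.Lib.MP_3ffbec_co

/-- Q1, negated form: for every constant `c` there is a finite connected graph, of tree-breadth at
most 7, whose strong tree-breadth exceeds `c` times its tree-breadth. -/
theorem Pool.Agent.Results.MP_3ffbec_co.NoLinearBound.result (c : ℝ) :
    ∃ (V : Type) (_ : Finite V) (G : SimpleGraph V),
      G.Connected ∧ tb G ≤ 7 ∧ c * (tb G : ℝ) < (stb G : ℝ) := by
  obtain ⟨k, hk⟩ := exists_nat_ge (|c| * 7)
  refine ⟨Vx (4 * k + 3), inferInstance, Gr (4 * k + 3), gr_connected (by omega),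
    tb_le (by omega), ?_⟩
  have h1 : (tb (Gr (4 * k + 3)) : ℝ) ≤ 7 := by exact_mod_cast tb_le (by omega)
  have h2 : (k : ℝ) < stb (Gr (4 * k + 3)) := by exact_mod_cast lt_stb k
  have h3 : c * (tb (Gr (4 * k + 3)) : ℝ) ≤ |c| * 7 :=
    (mul_le_mul_of_nonneg_right (le_abs_self c) (Nat.cast_nonneg _)).trans
      (mul_le_mul_of_nonneg_left h1 (abs_nonneg c))
  linarith
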